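import Mathlib

/-! Reduced words in the free product of two copies of the rationals, and the semidirect product
with the doubling automorphism. -/

set_option autoImplicit false

namespace Pool.Agent.H949Z.Gro

open Monoid

/-- The free product of two copies of `ℚ`. -/
abbrev NN : Type := CoprodI (fun _ : Bool => Multiplicative ℚ)

/-- A letter. -/
def let1 (i : Bool) (u : ℚ) : NN :=
  CoprodI.of (M := fun _ : Bool => Multiplicative ℚ) (i := i) (Multiplicative.ofAdd u)

theorem let1_add (i : Bool) (u v : ℚ) : let1 i (u + v) = let1 i u * let1 i v := by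
  unfold let1; rw [ofAdd_add, map_mul]

theorem let1_zero (i : Bool) : let1 i 0 = 1 := by
  unfold let1; rw [ofAdd_zero, map_one]

theorem let1_neg (i : Bool) (u : ℚ) : let1 i (-u) = (let1 i u)⁻¹ := by
  unfold let1; rw [ofAdd_neg, map_inv]

theorem let1_int (i : Bool) (k : ℤ) : let1 i k = (let1 i 1) ^ k := by
  unfold let1
  rw [← map_zpow, ← ofAdd_zsmul]
  simp

/-- Value of a list of letters. -/
def ev (l : List (Bool × ℚ)) : NN := (l.map fun x => let1 x.1 x.2).prod

@[simp] theorem ev_nil : ev [] = 1 := rfl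

@[simp] theorem ev_cons (x : Bool × ℚ) (l : List (Bool × ℚ)) :
    ev (x :: l) = let1 x.1 x.2 * ev l := by simp [ev]

@[simp] theorem ev_append (l m : List (Bool × ℚ)) : ev (l ++ m) = ev l * ev m := by simp [ev]

/-- Reduced lists. -/
def Red (l : List (Bool × ℚ)) : Prop :=
  (∀ x ∈ l, x.2 ≠ 0) ∧ (l.map Prod.fst).IsChain (· ≠ ·)

theorem red_nil : Red [] := ⟨by simp, by simp⟩

theorem ev_inj {l m : List (Bool × ℚ)} (hl : Red l) (hm : Red m) (h : ev l = ev m) : l = m := by
  classical
  let φ : Bool × ℚ → (Σ _ : Bool, Multiplicative ℚ) := fun x => ⟨x.1, Multiplicative.ofAdd x.2⟩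
  have hφ : Function.Injective φ := by
    rintro ⟨i, u⟩ ⟨j, v⟩ h
    simp only [φ, Sigma.mk.injEq, heq_eq_eq, EmbeddingLike.apply_eq_iff_eq] at h
    exact Prod.ext h.1 h.2
  let w : ∀ l : List (Bool × ℚ), Red l → CoprodI.Word (fun _ : Bool => Multiplicative ℚ) :=
    fun l hl => ⟨l.map φ, by
      intro y hy
      obtain ⟨x, hx, rfl⟩ := List.mem_map.1 hy
      simpa [φ] using hl.1 x hx, by
      have := hl.2
      rw [List.isChain_map] at this ⊢
      exact this⟩
  have hw : ∀ l hl, (w l hl).prod = ev l := by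
    intro l hl
    simp only [CoprodI.Word.prod, w, List.map_map, ev]
    rfl
  have h1 : w l hl = w m hm := by
    apply (CoprodI.Word.equiv (M := fun _ : Bool => Multiplicative ℚ)).symm.injective
    change (w l hl).prod = (w m hm).prod
    rw [hw l hl, hw m hm, h]
  have h2 : l.map φ = m.map φ := congrArg CoprodI.Word.toList h1
  exact List.map_injective_iff.2 hφ h2

theorem red_cons {x : Bool × ℚ} {l : List (Bool × ℚ)} :
    Red (x :: l) ↔ x.2 ≠ 0 ∧ (∀ y ∈ l.head?, x.1 ≠ y.1) ∧ Red l := by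
  unfold Red
  rw [List.map_cons, List.isChain_cons]
  cases l <;> simp [and_assoc, and_comm, and_left_comm]

theorem red_append {l m : List (Bool × ℚ)} :
    Red (l ++ m) ↔ Red l ∧ Red m ∧ ∀ x ∈ l.getLast?, ∀ y ∈ m.head?, x.1 ≠ y.1 := by
  unfold Red
  rw [List.map_append, List.isChain_append]
  simp only [List.mem_append, or_imp, forall_and, List.getLast?_map, List.head?_map,
    Option.mem_def, Option.map_eq_some_iff, forall_exists_index, and_imp,
    forall_apply_eq_imp_iff₂]
  tauto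

/-- Multiplying a reduced list by a letter. -/
theorem red_mul (B : AddSubgroup ℚ) (i : Bool) (u : ℚ) (hu : u ∈ B) (l : List (Bool × ℚ))
    (hl : Red l) (hB : ∀ x ∈ l, x.2 ∈ B) :
    ∃ m, Red m ∧ (∀ x ∈ m, x.2 ∈ B) ∧ m.length ≤ l.length + 1 ∧ ev m = let1 i u * ev l := by
  by_cases h0 : u = 0
  · exact ⟨l, hl, hB, by omega, by rw [h0, let1_zero, one_mul]⟩
  rcases l with _ | ⟨⟨j, v⟩, l⟩
  · exact ⟨[(i, u)], red_cons.2 ⟨h0, by simp, red_nil⟩, by simpa using hu, by simp, by simp⟩
  by_cases hij : i = j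
  · subst hij
    have h2 := red_cons.1 hl
    by_cases h1 : u + v = 0
    · refine ⟨l, h2.2.2, fun x hx => hB x (by simp [hx]), by simp; omega, ?_⟩
      rw [ev_cons, ← mul_assoc, ← let1_add, h1, let1_zero, one_mul]
    · refine ⟨(i, u + v) :: l, red_cons.2 ⟨h1, h2.2.1, h2.2.2⟩, ?_, by simp, ?_⟩
      · intro x hx
        rcases List.mem_cons.1 hx with rfl | hx
        · exact B.add_mem hu (hB (i, v) (by simp))
        · exact hB x (by simp [hx])
      · rw [ev_cons, ev_cons, ← mul_assoc, ← let1_add]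
  · refine ⟨(i, u) :: (j, v) :: l, red_cons.2 ⟨h0, by simpa using hij, hl⟩, ?_, by simp, by simp⟩
    intro x hx
    rcases List.mem_cons.1 hx with rfl | hx
    · exact hu
    · exact hB x hx

/-- Scaling all letters. -/
def sc (c : ℚ) : NN →* NN :=
  CoprodI.lift fun i => (CoprodI.of (M := fun _ : Bool => Multiplicative ℚ) (i := i)).comp
    (AddMonoidHom.toMultiplicative (AddMonoidHom.mulLeft c))

theorem sc_let1 (c : ℚ) (i : Bool) (u : ℚ) : sc c (let1 i u) = let1 i (c * u) := by
  unfold sc let1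
  rw [CoprodI.lift_of]
  rfl

theorem sc_comp (c d : ℚ) : (sc c).comp (sc d) = sc (c * d) := by
  refine CoprodI.ext_hom _ _ fun i => ?_
  ext u
  change sc c (sc d (let1 i u)) = sc (c * d) (let1 i u)
  rw [sc_let1, sc_let1, sc_let1, mul_assoc]

theorem sc_one : sc 1 = MonoidHom.id NN := by
  refine CoprodI.ext_hom _ _ fun i => ?_
  ext u
  change sc 1 (let1 i u) = let1 i u
  rw [sc_let1, one_mul]

/-- The doubling action of the integers. -/
def theta : Multiplicative ℤ →* MulAut NN where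
  toFun j := MonoidHom.toMulEquiv (sc ((2 : ℚ) ^ j.toAdd)) (sc ((2 : ℚ) ^ (-j.toAdd)))
    (by rw [sc_comp, ← zpow_add₀ two_ne_zero]; simp [sc_one])
    (by rw [sc_comp, ← zpow_add₀ two_ne_zero]; simp [sc_one])
  map_one' := by
    ext x
    simp [sc_one]
  map_mul' j k := by
    ext x
    change sc ((2 : ℚ) ^ (j * k).toAdd) x = sc ((2 : ℚ) ^ j.toAdd) (sc ((2 : ℚ) ^ k.toAdd) x)
    rw [toAdd_mul, zpow_add₀ two_ne_zero, ← sc_comp]
    rfl

theorem theta_apply (j : Multiplicative ℤ) (x : NN) : theta j x = sc ((2 : ℚ) ^ j.toAdd) x := rfl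

/-- Scaling a list. -/
def scl (c : ℚ) (l : List (Bool × ℚ)) : List (Bool × ℚ) := l.map fun x => (x.1, c * x.2)

theorem ev_scl (c : ℚ) (l : List (Bool × ℚ)) : ev (scl c l) = sc c (ev l) := by
  induction l with
  | nil => simp [scl]
  | cons x l ih =>
    have : scl c (x :: l) = (x.1, c * x.2) :: scl c l := rfl
    rw [this, ev_cons, ev_cons, map_mul, ih, sc_let1]

theorem scl_fst (c : ℚ) (l : List (Bool × ℚ)) : (scl c l).map Prod.fst = l.map Prod.fst := by
  simp [scl]

theorem red_scl {c : ℚ} (hc : c ≠ 0) {l : List (Bool × ℚ)} (hl : Red l) : Red (scl c l) := by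
  refine ⟨?_, by rw [scl_fst]; exact hl.2⟩
  intro x hx
  obtain ⟨y, hy, rfl⟩ := List.mem_map.1 hx
  exact mul_ne_zero hc (hl.1 y hy)

theorem length_scl (c : ℚ) (l : List (Bool × ℚ)) : (scl c l).length = l.length := by simp [scl]

/-- The ambient group. -/
abbrev Gam : Type := NN ⋊[theta] Multiplicative ℤ

/-- The generators `a` (for `true`) and `b` (for `false`). -/
def gen (i : Bool) : Gam := SemidirectProduct.inl (let1 i 1)

/-- The stable letter. -/
def tt : Gam := SemidirectProduct.inr (Multiplicative.ofAdd 1)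

/-- The subgroup generated by `a` and `b`. -/
def HH : Subgroup Gam := Subgroup.closure {gen true, gen false}

theorem gen_mem (i : Bool) : gen i ∈ HH := by
  cases i
  · exact Subgroup.subset_closure (by simp)
  · exact Subgroup.subset_closure (by simp)

theorem tt_zpow (k : ℤ) : tt ^ k = SemidirectProduct.inr (Multiplicative.ofAdd k) := by
  unfold tt
  rw [← map_zpow, ← ofAdd_zsmul]
  simp

theorem conj_inl (k : ℤ) (n : NN) :
    tt ^ k * SemidirectProduct.inl n * tt ^ (-k) =
      (SemidirectProduct.inl (sc ((2 : ℚ) ^ k) n) : Gam) := by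
  rw [tt_zpow, tt_zpow, ofAdd_neg, ← SemidirectProduct.inl_aut]
  rfl

theorem conj_gen_mem (k : ℕ) (i : Bool) : tt ^ (k : ℤ) * gen i * tt ^ (-(k : ℤ)) ∈ HH := by
  unfold gen
  rw [conj_inl, sc_let1, mul_one]
  have : ((2 : ℚ) ^ (k : ℤ)) = (((2 : ℤ) ^ k : ℤ) : ℚ) := by simp
  rw [this, let1_int, map_zpow]
  exact HH.zpow_mem (gen_mem i) _

/-- The integers inside the rationals. -/
def ZZ : AddSubgroup ℚ := (Int.castAddHom ℚ).range

theorem HH_list {h : Gam} (hh : h ∈ HH) :
    ∃ l, Red l ∧ (∀ x ∈ l, x.2 ∈ ZZ) ∧ h = SemidirectProduct.inl (ev l) := by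
  have key : ∀ (i : Bool) (k : ℤ) (y : Gam),
      (∃ l, Red l ∧ (∀ x ∈ l, x.2 ∈ ZZ) ∧ y = SemidirectProduct.inl (ev l)) →
      ∃ l, Red l ∧ (∀ x ∈ l, x.2 ∈ ZZ) ∧
        SemidirectProduct.inl (let1 i k) * y = SemidirectProduct.inl (ev l) := by
    rintro i k y ⟨l, h1, h2, rfl⟩
    obtain ⟨m, g1, g2, -, g4⟩ := red_mul ZZ i k ⟨k, rfl⟩ l h1 h2
    exact ⟨m, g1, g2, by rw [g4, map_mul]⟩
  induction hh using Subgroup.closure_induction_left with
  | one => exact ⟨[], red_nil, by simp, by simp⟩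
  | mul_left x hx y _ ih =>
    rcases hx with rfl | rfl
    · simpa [gen] using key true 1 y ih
    · simpa [gen] using key false 1 y ih
  | inv_mul_cancel x hx y _ ih =>
    rcases hx with rfl | rfl
    · simpa [gen, let1_neg] using key true (-1) y ih
    · simpa [gen, let1_neg] using key false (-1) y ih

end Pool.Agent.H949Z.Gro
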