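import Mathlib
import Pool.Agent.H949Z.Gro.Words

/-! Counting: the subgroup `HH` has many short elements. -/

set_option autoImplicit false

namespace Pool.Agent.H949Z.Gro

open Monoid SemidirectProduct

/-- Letters of the symmetric generating set. -/
def IsLet (x : Gam) : Prop :=
  (x = gen true ∨ x = gen false ∨ x = tt) ∨ (x⁻¹ = gen true ∨ x⁻¹ = gen false ∨ x⁻¹ = tt)

/-- The ball of radius `n`. -/
def Ball (n : ℕ) : Set Gam := {g | ∃ l : List Gam, l.length ≤ n ∧ (∀ x ∈ l, IsLet x) ∧ l.prod = g}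

theorem isLet_inv {x : Gam} (h : IsLet x) : IsLet x⁻¹ := by
  unfold IsLet at *
  rw [inv_inv]; exact h.symm

theorem one_mem_ball (n : ℕ) : (1 : Gam) ∈ Ball n := ⟨[], by simp, by simp, rfl⟩

theorem let_mem_ball {x : Gam} (h : IsLet x) : x ∈ Ball 1 := ⟨[x], by simp, by simpa, by simp⟩

theorem ball_mono {m n : ℕ} (h : m ≤ n) : Ball m ⊆ Ball n :=
  fun _ ⟨l, h1, h2⟩ => ⟨l, h1.trans h, h2⟩

theorem mul_mem_ball {m n : ℕ} {x y : Gam} (hx : x ∈ Ball m) (hy : y ∈ Ball n) :
    x * y ∈ Ball (m + n) := by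
  obtain ⟨l, h1, h2, rfl⟩ := hx
  obtain ⟨l', g1, g2, rfl⟩ := hy
  refine ⟨l ++ l', by simp; omega, ?_, by simp⟩
  intro x hx
  rcases List.mem_append.1 hx with h | h
  exacts [h2 x h, g2 x h]

theorem inv_mem_ball {m : ℕ} {x : Gam} (hx : x ∈ Ball m) : x⁻¹ ∈ Ball m := by
  obtain ⟨l, h1, h2, rfl⟩ := hx
  refine ⟨(l.map fun x => x⁻¹).reverse, by simpa using h1, ?_, (List.prod_inv_reverse l).symm⟩
  intro x hx
  simp only [List.mem_reverse, List.mem_map] at hx
  obtain ⟨y, hy, rfl⟩ := hx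
  exact isLet_inv (h2 y hy)

theorem pow_mem_ball {x : Gam} (h : IsLet x) (n : ℕ) : x ^ n ∈ Ball n :=
  ⟨List.replicate n x, by simp, fun y hy => by rw [List.eq_of_mem_replicate hy]; exact h, by simp⟩

theorem ball_induction {P : ℕ → Gam → Prop} (h0 : ∀ n, P n 1)
    (hs : ∀ n s x, IsLet s → P n x → P (n + 1) (s * x)) {n : ℕ} {x : Gam} (hx : x ∈ Ball n) :
    P n x := by
  obtain ⟨l, h1, h2, rfl⟩ := hx
  induction l generalizing n with
  | nil => exact h0 n
  | cons s l ih =>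
    obtain ⟨n, rfl⟩ : ∃ k, n = k + 1 := ⟨n - 1, by simp at h1; omega⟩
    rw [List.prod_cons]
    exact hs n s _ (h2 s (by simp)) (ih (by simpa using h1) fun y hy => h2 y (by simp [hy]))

theorem isLet_cases {s : Gam} (h : IsLet s) :
    (∃ i, s = gen i ∨ s = (gen i)⁻¹) ∨ s = tt ∨ s = tt⁻¹ := by
  rcases h with (h | h | h) | (h | h | h)
  · exact Or.inl ⟨true, Or.inl h⟩
  · exact Or.inl ⟨false, Or.inl h⟩
  · exact Or.inr (Or.inl h)
  · exact Or.inl ⟨true, Or.inr (by rw [← h, inv_inv])⟩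
  · exact Or.inl ⟨false, Or.inr (by rw [← h, inv_inv])⟩
  · exact Or.inr (Or.inr (by rw [← h, inv_inv]))

theorem ball_finite (n : ℕ) : (Ball n).Finite ∧ (Ball n).ncard ≤ 7 ^ n := by
  classical
  let T : Finset Gam := [1, gen true, gen false, tt, (gen true)⁻¹, (gen false)⁻¹, tt⁻¹].toFinset
  have hT : T.card ≤ 7 := List.toFinset_card_le _
  induction n with
  | zero =>
    have : Ball 0 ⊆ {1} := by
      rintro x ⟨l, h1, -, rfl⟩
      rw [List.length_eq_zero_iff.1 (Nat.le_zero.1 h1)]; rfl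
    exact ⟨(Set.finite_singleton _).subset this,
      (Set.ncard_le_ncard this (Set.finite_singleton _)).trans (by simp)⟩
  | succ n ih =>
    have hsub : Ball (n + 1) ⊆ (fun p : Gam × Gam => p.1 * p.2) '' ((T : Set Gam) ×ˢ Ball n) := by
      rintro x ⟨l, h1, h2, rfl⟩
      rcases l with _ | ⟨s, l⟩
      · exact ⟨(1, 1), ⟨by simp [T], one_mem_ball n⟩, by simp⟩
      · refine ⟨(s, l.prod), ⟨?_, l, by simpa using h1, fun y hy => h2 y (by simp [hy]), rfl⟩,
          by simp⟩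
        rcases isLet_cases (h2 s (by simp)) with ⟨i, rfl | rfl⟩ | rfl | rfl
        · cases i <;> simp [T]
        · cases i <;> simp [T]
        · simp [T]
        · simp [T]
    have hfin : ((T : Set Gam) ×ˢ Ball n).Finite := T.finite_toSet.prod ih.1
    refine ⟨(hfin.image _).subset hsub, (Set.ncard_le_ncard hsub (hfin.image _)).trans
      ((Set.ncard_image_le hfin).trans ?_)⟩
    rw [Set.ncard_prod, Set.ncard_coe_finset, pow_succ']
    exact Nat.mul_le_mul hT ih.2

/-- Height. -/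
def ht (x : Gam) : ℤ := x.right.toAdd

theorem ht_mul (x y : Gam) : ht (x * y) = ht x + ht y := by simp [ht]

theorem ht_inv (x : Gam) : ht x⁻¹ = -ht x := by simp [ht]

theorem ht_gen (i : Bool) : ht (gen i) = 0 := by simp [ht, gen]

theorem ht_tt : ht tt = 1 := by simp [ht, tt]

theorem left_mul (x y : Gam) : (x * y).left = x.left * sc ((2 : ℚ) ^ ht x) y.left := rfl

theorem two_zpow_ne (j : ℤ) : (2 : ℚ) ^ j ≠ 0 := zpow_ne_zero _ two_ne_zero

theorem ball_ht {n : ℕ} {x : Gam} (hx : x ∈ Ball n) : |ht x| ≤ n := by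
  refine ball_induction (P := fun n x => |ht x| ≤ n) (fun n => by simp [ht])
    (fun n s x hs hx => ?_) hx
  rw [ht_mul]
  have : |ht s| ≤ 1 := by
    rcases isLet_cases hs with ⟨i, rfl | rfl⟩ | rfl | rfl <;> simp [ht_inv, ht_gen, ht_tt]
  have := abs_add_le (ht s) (ht x)
  push_cast; linarith

theorem ball_list {n : ℕ} {x : Gam} (hx : x ∈ Ball n) :
    ∃ l, Red l ∧ l.length ≤ n ∧ ev l = x.left := by
  refine ball_induction (P := fun n x => ∃ l, Red l ∧ l.length ≤ n ∧ ev l = x.left)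
    (fun n => ⟨[], red_nil, by simp, by simp⟩) (fun n s x hs hx => ?_) hx
  obtain ⟨l, h1, h2, h3⟩ := hx
  have key : ∀ (i : Bool) (u : ℚ), ∃ m, Red m ∧ m.length ≤ n + 1 ∧
      ev m = ((inl (let1 i u) : Gam) * x).left := by
    intro i u
    obtain ⟨m, g1, -, g3, g4⟩ := red_mul ⊤ i u trivial l h1 (fun _ _ => trivial)
    exact ⟨m, g1, by omega, by rw [g4, h3]; simp⟩
  have key2 : ∀ s : Gam, s.left = 1 → ∃ m, Red m ∧ m.length ≤ n + 1 ∧ ev m = (s * x).left := by
    intro s hs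
    exact ⟨scl ((2 : ℚ) ^ ht s) l, red_scl (two_zpow_ne _) h1, by rw [length_scl]; omega,
      by rw [left_mul, hs, one_mul, ev_scl, h3]⟩
  rcases isLet_cases hs with ⟨i, rfl | rfl⟩ | rfl | rfl
  · exact key i 1
  · simpa [gen, let1_neg] using key i (-1)
  · exact key2 _ (by simp [tt])
  · exact key2 _ (by simp [tt])

theorem ball_conj {n : ℕ} {x : Gam} (hx : x ∈ Ball n) :
    ∀ k : ℕ, n ≤ k → tt ^ (k : ℤ) * x * tt ^ (-((k : ℤ) + ht x)) ∈ HH := by
  refine ball_induction
    (P := fun n x => ∀ k : ℕ, n ≤ k → tt ^ (k : ℤ) * x * tt ^ (-((k : ℤ) + ht x)) ∈ HH)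
    (fun n k _ => ?_) (fun n s x hs hx k hk => ?_) hx
  · simp [ht, HH.one_mem]
  rcases isLet_cases hs with ⟨i, rfl | rfl⟩ | rfl | rfl
  · have := HH.mul_mem (conj_gen_mem k i) (hx k (by omega))
    rw [ht_mul, ht_gen, zero_add]
    convert this using 1
    group
  · have := HH.mul_mem (HH.inv_mem (conj_gen_mem k i)) (hx k (by omega))
    rw [ht_mul, ht_inv, ht_gen, neg_zero, zero_add]
    convert this using 1
    group
  · have := hx (k + 1) (by omega)
    rw [ht_mul, ht_tt]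
    convert this using 1
    push_cast
    group
  · obtain ⟨k, rfl⟩ : ∃ j, k = j + 1 := ⟨k - 1, by omega⟩
    have := hx k (by omega)
    rw [ht_mul, ht_inv, ht_tt]
    convert this using 1
    push_cast
    group

/-- Elements whose normal form starts with `a`, ends with `b` and has `L` letters. -/
def Good (m : ℕ) (j : ℤ) (L : ℕ) : Set Gam :=
  {x | x ∈ Ball m ∧ ht x = j ∧ ∃ l, Red l ∧ l.length = L ∧ ev l = x.left ∧
    (l.map Prod.fst).head? = some true ∧ (l.map Prod.fst).getLast? = some false}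

theorem red_append_good {l l' : List (Bool × ℚ)} (h : Red l) (h' : Red l')
    (e : (l.map Prod.fst).getLast? = some false) (e' : (l'.map Prod.fst).head? = some true) :
    Red (l ++ l') := by
  refine red_append.2 ⟨h, h', fun x hx y hy => ?_⟩
  rw [List.getLast?_map, Option.mem_def.1 hx] at e
  rw [List.head?_map, Option.mem_def.1 hy] at e'
  simp only [Option.map_some, Option.some.injEq] at e e'
  simp [e, e']

theorem good_mul {m m' L L' : ℕ} {j j' : ℤ} {x y : Gam} (hx : x ∈ Good m j L)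
    (hy : y ∈ Good m' j' L') : x * y ∈ Good (m + m') (j + j') (L + L') := by
  obtain ⟨h1, h2, l, h3, h4, h5, h6, h7⟩ := hx
  obtain ⟨g1, g2, l', g3, g4, g5, g6, g7⟩ := hy
  refine ⟨mul_mem_ball h1 g1, by rw [ht_mul, h2, g2], l ++ scl ((2 : ℚ) ^ ht x) l',
    red_append_good h3 (red_scl (two_zpow_ne _) g3) h7 (by rw [scl_fst]; exact g6),
    by rw [List.length_append, length_scl, h4, g4],
    by rw [ev_append, ev_scl, left_mul, h5, g5], ?_, ?_⟩
  · rw [List.map_append, List.head?_append, h6]; rfl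
  · rw [List.map_append, List.getLast?_append, scl_fst, g7]; rfl

theorem good_inj {m m' L L' : ℕ} {j j' : ℤ} {x y x' y' : Gam} (hx : x ∈ Good m j L)
    (hy : y ∈ Good m' j' L') (hx' : x' ∈ Good m j L) (hy' : y' ∈ Good m' j' L')
    (e : x * y = x' * y') : x = x' ∧ y = y' := by
  obtain ⟨-, h2, l, h3, h4, h5, -, h7⟩ := hx
  obtain ⟨-, -, l', g3, -, g5, g6, -⟩ := hy
  obtain ⟨-, a2, k, a3, a4, a5, -, a7⟩ := hx'
  obtain ⟨-, -, k', b3, -, b5, b6, -⟩ := hy'
  have e1 : l ++ scl ((2 : ℚ) ^ ht x) l' = k ++ scl ((2 : ℚ) ^ ht x') k' := by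
    refine ev_inj (red_append_good h3 (red_scl (two_zpow_ne _) g3) h7 (by rw [scl_fst]; exact g6))
      (red_append_good a3 (red_scl (two_zpow_ne _) b3) a7 (by rw [scl_fst]; exact b6)) ?_
    rw [ev_append, ev_scl, ev_append, ev_scl, h5, g5, a5, b5, ← left_mul, ← left_mul, e]
  have e2 : l = k := (List.append_inj e1 (h4.trans a4.symm)).1
  have e3 : x = x' := by
    refine SemidirectProduct.ext (by rw [← h5, ← a5, e2]) ?_
    exact Multiplicative.toAdd.injective (h2.trans a2.symm)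
  subst e3
  exact ⟨rfl, mul_left_cancel e⟩

theorem good_card {m m' L L' : ℕ} {j j' : ℤ} {U V W : Set Gam} (hU : U ⊆ Good m j L)
    (hV : V ⊆ Good m' j' L') (hW : W.Finite) (h : ∀ x ∈ U, ∀ y ∈ V, x * y ∈ W) :
    U.ncard * V.ncard ≤ W.ncard := by
  rw [← Set.ncard_prod]
  refine Set.ncard_le_ncard_of_injOn (fun p => p.1 * p.2) (fun p hp => h _ hp.1 _ hp.2) ?_ hW
  intro p hp q hq e
  have := good_inj (hU hp.1) (hV hp.2) (hU hq.1) (hV hq.2) e
  exact Prod.ext this.1 this.2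

theorem good_finite (m : ℕ) (j : ℤ) (L : ℕ) : (Good m j L).Finite :=
  (ball_finite m).1.subset fun _ h => h.1

/-- The padding on the left. -/
def padL (b : Bool) : Gam := if b then gen true * gen false else gen true

/-- The padding on the right. -/
def padR (b : Bool) : Gam := if b then gen true * gen false else gen false

theorem isLet_gen (i : Bool) : IsLet (gen i) := by cases i <;> simp [IsLet]

theorem pad_good {n : ℕ} {x : Gam} (hx : x ∈ Ball n) :
    ∃ (b c : Bool) (L : ℕ), L ≤ n + 4 ∧ padL b * x * padR c ∈ Good (n + 4) (ht x) L := by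
  obtain ⟨l, h1, h2, h3⟩ := ball_list hx
  have hb2 : gen true * gen false ∈ Ball 2 :=
    mul_mem_ball (let_mem_ball (isLet_gen true)) (let_mem_ball (isLet_gen false))
  have hL : ∀ b, padL b ∈ Ball 2 := by
    rintro (_ | _)
    · exact ball_mono (by omega) (let_mem_ball (isLet_gen true))
    · exact hb2
  have hR : ∀ b, padR b ∈ Ball 2 := by
    rintro (_ | _)
    · exact ball_mono (by omega) (let_mem_ball (isLet_gen false))
    · exact hb2
  have hLh : ∀ b, ht (padL b) = 0 := by rintro (_ | _) <;> simp [padL, ht_mul, ht_gen]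
  have hRh : ∀ b, ht (padR b) = 0 := by rintro (_ | _) <;> simp [padR, ht_mul, ht_gen]
  obtain ⟨b, l1, r1, len1, e1, hd1⟩ : ∃ (b : Bool) (l1 : List (Bool × ℚ)), Red l1 ∧
      l1.length ≤ n + 2 ∧ ev l1 = (padL b * x).left ∧ (l1.map Prod.fst).head? = some true := by
    by_cases h : ∀ y ∈ l.head?, true ≠ y.1
    · exact ⟨false, (true, 1) :: l, red_cons.2 ⟨by norm_num, h, h1⟩, by simp; omega,
        by simp [padL, gen, h3], by simp⟩
    · refine ⟨true, (true, 1) :: (false, 1) :: l, red_cons.2 ⟨by norm_num, by simp,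
        red_cons.2 ⟨by norm_num, ?_, h1⟩⟩, by simp; omega,
        by simp [padL, gen, h3, mul_assoc], by simp⟩
      push Not at h
      obtain ⟨y, hy, hy'⟩ := h
      intro z hz
      rw [Option.mem_def.1 hy] at hz
      have : y = z := by simpa using hz
      rw [← this, ← hy']; simp
  set c : ℚ := (2 : ℚ) ^ ht (padL b * x) with hc
  have hc0 : c ≠ 0 := two_zpow_ne _
  have hne : l1.map Prod.fst ≠ [] := by
    intro h; rw [h] at hd1; simp at hd1
  have hball : ∀ d, padL b * x * padR d ∈ Ball (n + 4) := fun d => by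
    have := mul_mem_ball (mul_mem_ball (hL b) hx) (hR d)
    exact ball_mono (by omega) this
  have hht : ∀ d, ht (padL b * x * padR d) = ht x := fun d => by
    rw [ht_mul, ht_mul, hLh, hRh]; ring
  by_cases h : ∀ y ∈ l1.getLast?, y.1 ≠ false
  · refine ⟨b, false, l1.length + 1, by omega, hball _, hht _, l1 ++ [(false, c)],
      red_append.2 ⟨r1, red_cons.2 ⟨hc0, by simp, red_nil⟩, by simpa using h⟩, by simp, ?_,
      by rw [List.map_append, List.head?_append, hd1]; rfl, by simp⟩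
    rw [left_mul, ← hc, ← e1]
    simp [padR, gen, sc_let1]
  · refine ⟨b, true, l1.length + 2, by omega, hball _, hht _, l1 ++ [(true, c), (false, c)],
      red_append.2 ⟨r1, red_cons.2 ⟨hc0, by simp, red_cons.2 ⟨hc0, by simp, red_nil⟩⟩, ?_⟩,
      by simp, ?_, by rw [List.map_append, List.head?_append, hd1]; rfl, by simp⟩
    · push Not at h
      obtain ⟨y, hy, hy'⟩ := h
      intro z hz w hw
      rw [Option.mem_def.1 hy] at hz
      have h1 : y = z := by simpa using hz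
      have h2 : (true, c) = w := by simpa using hw
      rw [← h1, ← h2, hy']; simp
    · rw [left_mul, ← hc, ← e1]
      simp [padR, gen, sc_let1]

theorem pigeon {α β : Type*} (s : Set α) (hs : s.Finite) (T : Finset β) (hT : T.Nonempty)
    (R : α → β → Prop) (h : ∀ x ∈ s, ∃ t ∈ T, R x t) :
    ∃ t ∈ T, s.ncard ≤ T.card * {x ∈ s | R x t}.ncard := by
  obtain ⟨t, ht, hmax⟩ := T.exists_max_image (fun t => {x ∈ s | R x t}.ncard) hT
  refine ⟨t, ht, ?_⟩
  have hsub : s ⊆ ⋃ u ∈ T, {x ∈ s | R x u} := by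
    intro x hx
    obtain ⟨u, hu, hr⟩ := h x hx
    exact Set.mem_biUnion hu ⟨hx, hr⟩
  have hfin : (⋃ u ∈ T, {x ∈ s | R x u}).Finite :=
    hs.subset (Set.iUnion₂_subset fun u _ x hx => hx.1)
  refine (Set.ncard_le_ncard hsub hfin).trans ((Finset.set_ncard_biUnion_le T _).trans ?_)
  rw [← smul_eq_mul]
  exact Finset.sum_le_card_nsmul _ _ _ hmax

theorem slice_le (n : ℕ) (j : ℤ) :
    ∃ L, {x ∈ Ball n | ht x = j}.ncard ≤ 4 * (n + 5) * (Good (n + 4) j L).ncard := by
  obtain ⟨⟨b, c, L⟩, -, h⟩ := pigeon {x ∈ Ball n | ht x = j}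
    ((ball_finite n).1.subset fun _ h => h.1)
    ((Finset.univ : Finset Bool) ×ˢ ((Finset.univ : Finset Bool) ×ˢ Finset.range (n + 5)))
    (by simp) (fun x t => padL t.1 * x * padR t.2.1 ∈ Good (n + 4) j t.2.2) (by
      rintro x ⟨hx, rfl⟩
      obtain ⟨b, c, L, h1, h2⟩ := pad_good hx
      exact ⟨(b, c, L), by simp; omega, h2⟩)
  refine ⟨L, h.trans ?_⟩
  simp only [Finset.card_product, Finset.card_univ, Fintype.card_bool, Finset.card_range]
  refine Nat.mul_le_mul (by omega) ?_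
  refine Set.ncard_le_ncard_of_injOn (fun x => padL b * x * padR c) (fun x hx => hx.2) ?_
    (good_finite _ _ _)
  intro x _ y _ e
  exact mul_left_cancel (mul_right_cancel e)

theorem good_zero (n : ℕ) : ∃ L, (Ball n).ncard ^ 2 ≤
    ((2 * n + 1) * (4 * (n + 5))) ^ 2 * (Good (2 * n + 8) 0 L).ncard := by
  obtain ⟨j, -, h⟩ := pigeon (Ball n) (ball_finite n).1 (Finset.Icc (-(n : ℤ)) n)
    ⟨0, by simp⟩ (fun x j => ht x = j) (fun x hx => ⟨ht x, by
      simpa [abs_le] using ball_ht hx, rfl⟩)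
  have hc : (Finset.Icc (-(n : ℤ)) n).card = 2 * n + 1 := by
    rw [Int.card_Icc]; omega
  rw [hc] at h
  have hsym : {x ∈ Ball n | ht x = j}.ncard ≤ {x ∈ Ball n | ht x = -j}.ncard :=
    Set.ncard_le_ncard_of_injOn (fun x => x⁻¹)
      (fun x hx => ⟨inv_mem_ball hx.1, by rw [ht_inv, hx.2]⟩)
      (fun x _ y _ e => inv_injective e) ((ball_finite n).1.subset fun _ h => h.1)
  obtain ⟨L1, h1⟩ := slice_le n j
  obtain ⟨L2, h2⟩ := slice_le n (-j)
  have h3 := good_card (U := Good (n + 4) j L1) (V := Good (n + 4) (-j) L2)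
    (W := Good (2 * n + 8) 0 (L1 + L2)) subset_rfl subset_rfl (good_finite _ _ _)
    (fun x hx y hy => by
      have := good_mul hx hy
      rwa [add_neg_cancel, show n + 4 + (n + 4) = 2 * n + 8 by ring] at this)
  refine ⟨L1 + L2, ?_⟩
  have a1 : (Ball n).ncard ≤ (2 * n + 1) * (4 * (n + 5) * (Good (n + 4) j L1).ncard) :=
    h.trans (Nat.mul_le_mul_left _ h1)
  have a2 : (Ball n).ncard ≤ (2 * n + 1) * (4 * (n + 5) * (Good (n + 4) (-j) L2).ncard) :=
    h.trans (Nat.mul_le_mul_left _ (hsym.trans h2))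
  calc (Ball n).ncard ^ 2 = (Ball n).ncard * (Ball n).ncard := sq _
    _ ≤ _ := Nat.mul_le_mul a1 a2
    _ = ((2 * n + 1) * (4 * (n + 5))) ^ 2 *
        ((Good (n + 4) j L1).ncard * (Good (n + 4) (-j) L2).ncard) := by ring
    _ ≤ _ := Nat.mul_le_mul_left _ h3

theorem good_pow (M L r : ℕ) : (Good M 0 L).ncard ^ (r + 1) ≤
    {x ∈ Good ((r + 1) * M) 0 ((r + 1) * L) | tt ^ (M : ℤ) * x * tt ^ (-(M : ℤ)) ∈ HH}.ncard := by
  have hc : ∀ x ∈ Good M 0 L, tt ^ (M : ℤ) * x * tt ^ (-(M : ℤ)) ∈ HH := by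
    intro x hx
    have := ball_conj hx.1 M le_rfl
    rwa [hx.2.1, add_zero] at this
  induction r with
  | zero =>
    simp only [zero_add, pow_one, one_mul]
    exact Set.ncard_le_ncard (fun x hx => ⟨hx, hc x hx⟩)
      ((good_finite _ _ _).subset fun _ h => h.1)
  | succ r ih =>
    rw [pow_succ]
    refine (Nat.mul_le_mul_right _ ih).trans (good_card (fun _ h => h.1) subset_rfl
      ((good_finite _ _ _).subset fun _ h => h.1) fun x hx y hy => ⟨?_, ?_⟩)
    · have := good_mul hx.1 hy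
      rwa [add_zero, ← add_one_mul, ← add_one_mul] at this
    · have := HH.mul_mem hx.2 (hc y hy)
      convert this using 1
      group

theorem many (n r : ℕ) : (Ball n).ncard ^ (2 * (r + 1)) ≤
    ((2 * n + 1) * (4 * (n + 5))) ^ (2 * (r + 1)) *
      {x | x ∈ HH ∧ x ∈ Ball ((r + 3) * (2 * n + 8))}.ncard := by
  obtain ⟨L, h⟩ := good_zero n
  set M := 2 * n + 8 with hM
  have h2 := good_pow M L r
  have h3 : {x ∈ Good ((r + 1) * M) 0 ((r + 1) * L) |
      tt ^ (M : ℤ) * x * tt ^ (-(M : ℤ)) ∈ HH}.ncard ≤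
      {x | x ∈ HH ∧ x ∈ Ball ((r + 3) * M)}.ncard := by
    refine Set.ncard_le_ncard_of_injOn (fun x => tt ^ (M : ℤ) * x * tt ^ (-(M : ℤ)))
      (fun x hx => ⟨hx.2, ?_⟩) (fun x _ y _ e => mul_left_cancel (mul_right_cancel e))
      ((ball_finite _).1.subset fun _ h => h.2)
    have b1 : tt ^ M ∈ Ball M := pow_mem_ball (by simp [IsLet]) M
    have := mul_mem_ball (mul_mem_ball b1 hx.1.1) (inv_mem_ball b1)
    rw [zpow_neg, zpow_natCast]
    exact ball_mono (by ring_nf; omega) this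
  rw [pow_mul, pow_mul]
  refine (Nat.pow_le_pow_left h _).trans ?_
  rw [mul_pow]
  exact Nat.mul_le_mul_left _ (h2.trans h3)

end Pool.Agent.H949Z.Gro
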