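import Mathlib
import Pool.Agent.H949Z.Gro.Words

/-! The subgroup `HH` and the element `gg` generate a free product of monoids. -/

set_option autoImplicit false

namespace Pool.Agent.H949Z.Gro

open Monoid SemidirectProduct

/-- The free letter. -/
def gg : Gam := inl (let1 true (1 / 2) * let1 false (1 / 2))

theorem gg_eq : gg = tt⁻¹ * (gen true * gen false) * tt := by
  have := conj_inl (-1) (let1 true 1 * let1 false 1)
  simp only [neg_neg, zpow_one, zpow_neg, map_mul, sc_let1, mul_one] at this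
  unfold gg gen
  rw [this, map_mul]
  norm_num

/-- Ping-pong sets. -/
def XX : Set Gam := {x | ∃ m, Red m ∧ m.head? ≠ some (false, -(1 / 2)) ∧ x = inl (ev m)}

/-- Ping-pong sets. -/
def YY : Set Gam := {x | ∃ m, Red ((true, 1 / 2) :: m) ∧ x = inl (ev ((true, 1 / 2) :: m))}

theorem half_notMem (k : ℤ) : (k : ℚ) + 1 / 2 ∉ ZZ := by
  rintro ⟨j, hj⟩
  have h : (j : ℚ) = k + 1 / 2 := hj
  have h2 : ((2 * j : ℤ) : ℚ) = ((2 * k + 1 : ℤ) : ℚ) := by push_cast; linarith
  have h3 : 2 * j = 2 * k + 1 := by exact_mod_cast h2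
  omega

theorem gg_mul {x : Gam} (hx : x ∈ XX) : gg * x ∈ YY := by
  obtain ⟨m, h1, h2, rfl⟩ := hx
  rcases m with _ | ⟨⟨j, v⟩, m⟩
  · exact ⟨[(false, 1 / 2)], red_cons.2 ⟨by norm_num, by simp, red_cons.2
      ⟨by norm_num, by simp, red_nil⟩⟩, by simp [gg]⟩
  cases j
  · have h3 := red_cons.1 h1
    have hv : 1 / 2 + v ≠ 0 := by
      intro h
      apply h2
      have : v = -(1 / 2) := by linarith
      simp [this]
    refine ⟨(false, 1 / 2 + v) :: m, red_cons.2 ⟨by norm_num, by simp, red_cons.2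
      ⟨hv, h3.2.1, h3.2.2⟩⟩, ?_⟩
    simp only [gg, ev_cons, let1_add, map_mul, mul_assoc]
  · refine ⟨(false, 1 / 2) :: (true, v) :: m, red_cons.2 ⟨by norm_num, by simp, red_cons.2
      ⟨by norm_num, by simp, h1⟩⟩, ?_⟩
    simp only [gg, ev_cons, map_mul, mul_assoc]

theorem split {h z : Gam} (hh : h ∈ HH) (hz : z ∈ YY) :
    ∃ (l : List (Bool × ℚ)) (k : ℤ) (m : List (Bool × ℚ)), (∀ x ∈ l, x.2 ∈ ZZ) ∧
      Red (l ++ (true, (k : ℚ) + 1 / 2) :: m) ∧
      h * z = inl (ev (l ++ (true, (k : ℚ) + 1 / 2) :: m)) ∧ h = inl (ev l * let1 true k) := by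
  obtain ⟨l, h1, h2, rfl⟩ := HH_list hh
  obtain ⟨m, g1, rfl⟩ := hz
  have g2 := red_cons.1 g1
  rcases l.eq_nil_or_concat with rfl | ⟨l, ⟨i, u⟩, rfl⟩
  · exact ⟨[], 0, m, by simp, by simpa using g1, by simp, by simp [let1_zero]⟩
  rw [List.concat_eq_append] at h1 h2 ⊢
  cases i
  · refine ⟨l ++ [(false, u)], 0, m, h2, red_append.2 ⟨h1, by simpa using g1, by simp⟩,
      by simp [mul_assoc], by simp [let1_zero]⟩
  · obtain ⟨k, hk⟩ := h2 (true, u) (by simp)
    have hk' : (k : ℚ) = u := hk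
    subst hk'
    have h3 := red_append.1 h1
    refine ⟨l, k, m, fun x hx => h2 x (by simp [hx]), red_append.2 ⟨h3.1, red_cons.2
      ⟨?_, g2.2.1, g2.2.2⟩, by simpa using h3.2.2⟩, ?_, by simp⟩
    · intro h0
      have h0' : (k : ℚ) + 1 / 2 = 0 := h0
      exact half_notMem k (by rw [h0']; exact ZZ.zero_mem)
    · simp only [ev_append, ev_cons, ev_nil, mul_one, let1_add, map_mul, mul_assoc]

theorem HH_sub_XX {h : Gam} (hh : h ∈ HH) : h ∈ XX := by
  obtain ⟨l, h1, h2, rfl⟩ := HH_list hh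
  refine ⟨l, h1, fun h => ?_, rfl⟩
  have := h2 _ (List.mem_of_mem_head? h)
  apply half_notMem (-1)
  convert this using 1
  norm_num

theorem mul_mem_XX {h z : Gam} (hh : h ∈ HH) (hz : z ∈ YY) : h * z ∈ XX := by
  obtain ⟨l, k, m, h1, h2, h3, -⟩ := split hh hz
  refine ⟨_, h2, fun h => ?_, h3⟩
  rcases l with _ | ⟨y, l⟩
  · simp at h
  · have hy : y = (false, -(1 / 2)) := by simpa using h
    have := h1 y (by simp)
    apply half_notMem (-1)
    rw [hy] at this
    convert this using 1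
    norm_num

theorem mul_notMem {h z : Gam} (hh : h ∈ HH) (hz : z ∈ YY) : h * z ∉ HH := by
  intro hm
  obtain ⟨l, k, m, -, h2, h3, -⟩ := split hh hz
  obtain ⟨l', g1, g2, g3⟩ := HH_list hm
  have := ev_inj h2 g1 (inl_injective (h3.symm.trans g3))
  exact half_notMem k (g2 (true, (k : ℚ) + 1 / 2) (by rw [← this]; simp))

theorem eq_one_of {h z : Gam} (hh : h ∈ HH) (hz : z ∈ YY) (hz' : h * z ∈ YY) : h = 1 := by
  obtain ⟨l, k, m, h1, h2, h3, h4⟩ := split hh hz
  obtain ⟨m', g1, g3⟩ := hz'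
  have := ev_inj h2 g1 (inl_injective (h3.symm.trans g3))
  rcases l with _ | ⟨y, l⟩
  · have hk : (k : ℚ) = 0 := by
      simp only [List.nil_append, List.cons.injEq, Prod.mk.injEq, true_and] at this
      linarith [this.1]
    rw [h4, hk, let1_zero]; simp
  · exfalso
    have hy : y = (true, 1 / 2) := by
      simp only [List.cons_append, List.cons.injEq] at this
      exact this.1
    have := h1 y (by simp)
    apply half_notMem 0
    rw [hy] at this
    convert this using 1
    norm_num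

/-- Alternating products. -/
def alt {M : Type*} [Monoid M] (g : M) : M → List M → M
  | h, [] => h
  | h, k :: l => h * (g * alt g k l)

theorem alt_mem_XX : ∀ (l : List Gam) (h : Gam), h ∈ HH → (∀ k ∈ l, k ∈ HH) → alt gg h l ∈ XX
  | [], _, hh, _ => HH_sub_XX hh
  | k :: l, _, hh, hl => mul_mem_XX hh (gg_mul (alt_mem_XX l k (hl k (by simp))
      fun y hy => hl y (by simp [hy])))

theorem alt_inj : ∀ (l l' : List Gam) (h h' : Gam), h ∈ HH → h' ∈ HH → (∀ k ∈ l, k ∈ HH) →
    (∀ k ∈ l', k ∈ HH) → alt gg h l = alt gg h' l' → h = h' ∧ l = l'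
  | [], [], _, _, _, _, _, _, e => ⟨e, rfl⟩
  | [], k :: l, h, h', hh, hh', _, hl, e => by
    exfalso
    have e' : h = h' * (gg * alt gg k l) := e
    refine mul_notMem hh' (gg_mul (alt_mem_XX l k (hl k (by simp))
      fun y hy => hl y (by simp [hy]))) ?_
    rw [← e']; exact hh
  | k :: l, [], h, h', hh, hh', hl, _, e => by
    exfalso
    have e' : h * (gg * alt gg k l) = h' := e
    refine mul_notMem hh (gg_mul (alt_mem_XX l k (hl k (by simp))
      fun y hy => hl y (by simp [hy]))) ?_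
    rw [e']; exact hh'
  | k :: l, k' :: l', h, h', hh, hh', hl, hl', e => by
    have y1 := gg_mul (alt_mem_XX l k (hl k (by simp)) fun y hy => hl y (by simp [hy]))
    have y2 := gg_mul (alt_mem_XX l' k' (hl' k' (by simp)) fun y hy => hl' y (by simp [hy]))
    have e' : h * (gg * alt gg k l) = h' * (gg * alt gg k' l') := e
    have h1 : h'⁻¹ * h = 1 := eq_one_of (HH.mul_mem (HH.inv_mem hh') hh) y1 (by
      rw [mul_assoc, e', inv_mul_cancel_left]; exact y2)
    have h2 : h = h' := (inv_mul_eq_one.1 h1).symm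
    subst h2
    have := alt_inj l l' k k' (hl k (by simp)) (hl' k' (by simp))
      (fun y hy => hl y (by simp [hy])) (fun y hy => hl' y (by simp [hy]))
      (mul_left_cancel (mul_left_cancel e'))
    exact ⟨rfl, by rw [this.1, this.2]⟩

theorem map_alt {M N : Type*} [Monoid M] [Monoid N] (f : M →* N) (g : M) :
    ∀ (l : List M) (h : M), f (alt g h l) = alt (f g) (f h) (l.map f)
  | [], _ => rfl
  | k :: l, h => by simp only [alt, map_mul, List.map_cons, map_alt f g l k]

theorem mul_alt {M : Type*} [Monoid M] (g x h : M) (l : List M) :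
    x * alt g h l = alt g (x * h) l := by
  cases l <;> simp [alt, mul_assoc]

theorem exists_alt {K : Type*} [Monoid K] (w : Coprod K (Multiplicative ℕ)) :
    ∃ (h : K) (l : List K), w = alt (Coprod.inr (Multiplicative.ofAdd 1)) (Coprod.inl h)
      (l.map Coprod.inl) := by
  induction w using Coprod.induction_on' with
  | one => exact ⟨1, [], by simp [alt]⟩
  | inl_mul k w ih =>
    obtain ⟨h, l, rfl⟩ := ih
    exact ⟨k * h, l, by rw [mul_alt, map_mul]⟩
  | inr_mul n w ih =>
    obtain ⟨n, rfl⟩ := Multiplicative.ofAdd.surjective n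
    induction n with
    | zero => simpa using ih
    | succ n ihn =>
      obtain ⟨h, l, e⟩ := ihn
      refine ⟨1, h :: l, ?_⟩
      rw [add_comm, ofAdd_add, map_mul, mul_assoc, e]
      simp [alt]

/-- Injectivity of the map from the free product of monoids. -/
theorem coprod_inj {K : Type*} [Monoid K] (ι : K →* Gam) (hι : Function.Injective ι)
    (hH : ∀ k, ι k ∈ HH) (f : Coprod K (Multiplicative ℕ) →* Gam)
    (h1 : ∀ k, f (Coprod.inl k) = ι k) (h2 : f (Coprod.inr (Multiplicative.ofAdd 1)) = gg) :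
    Function.Injective f := by
  intro w w' e
  obtain ⟨h, l, rfl⟩ := exists_alt w
  obtain ⟨h', l', rfl⟩ := exists_alt w'
  have hm : ∀ l : List K, (l.map Coprod.inl).map f = l.map ι := by
    intro l
    rw [List.map_map]
    exact List.map_congr_left fun k _ => h1 k
  rw [map_alt, map_alt, h1, h1, h2, hm, hm] at e
  have := alt_inj _ _ _ _ (hH h) (hH h') (by simpa using fun k _ => hH k)
    (by simpa using fun k _ => hH k) e
  rw [hι this.1, List.map_injective_iff.2 hι this.2]

end Pool.Agent.H949Z.Gro
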