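import Mathlib
import Pool.Agent.H949Z.Gro.Free
import Pool.Agent.H949Z.Gro.Count

/-! The growth rates agree; transfer to the finitely generated group. -/

set_option autoImplicit false

namespace Pool.Agent.H949Z.Gro

open Monoid Filter Topology

theorem root_le {a : ℕ → ℕ} (h : ∀ n, a n ≤ 7 ^ n) (n : ℕ) :
    ((a n : ℕ) : ℝ) ^ ((1 : ℝ) / (n : ℝ)) ≤ 7 := by
  rcases Nat.eq_zero_or_pos n with rfl | hn
  · simp
  have h1 : ((a n : ℕ) : ℝ) ≤ (7 : ℝ) ^ n := by exact_mod_cast h n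
  calc ((a n : ℕ) : ℝ) ^ ((1 : ℝ) / (n : ℝ)) ≤ ((7 : ℝ) ^ n) ^ ((1 : ℝ) / (n : ℝ)) :=
        Real.rpow_le_rpow (Nat.cast_nonneg _) h1 (by positivity)
    _ = 7 := by rw [one_div, Real.pow_rpow_inv_natCast (by norm_num) hn.ne']

theorem limsup_le_of {a b : ℕ → ℕ} (ha : ∀ n, a n ≤ 7 ^ n) (hb : ∀ n, b n ≤ 7 ^ n)
    (h : ∀ n r, b n ^ (2 * (r + 1)) ≤
      ((2 * n + 1) * (4 * (n + 5))) ^ (2 * (r + 1)) * a ((r + 3) * (2 * n + 8))) :
    limsup (fun n : ℕ => ((b n : ℕ) : ℝ) ^ ((1 : ℝ) / (n : ℝ))) atTop ≤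
      limsup (fun n : ℕ => ((a n : ℕ) : ℝ) ^ ((1 : ℝ) / (n : ℝ))) atTop := by
  by_contra hlt
  rw [not_le] at hlt
  have bdd : IsBoundedUnder (· ≤ ·) atTop (fun n : ℕ => ((a n : ℕ) : ℝ) ^ ((1 : ℝ) / (n : ℝ))) :=
    isBoundedUnder_of ⟨7, root_le ha⟩
  have h0 : 0 ≤ limsup (fun n : ℕ => ((a n : ℕ) : ℝ) ^ ((1 : ℝ) / (n : ℝ))) atTop :=
    le_limsup_of_frequently_le (Frequently.of_forall fun n => by positivity) bdd
  obtain ⟨c, hc1, hc2⟩ := exists_between hlt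
  obtain ⟨d, hd1, hd2⟩ := exists_between hc2
  have hc0 : 0 < c := h0.trans_lt hc1
  have hd0 : 0 < d := hc0.trans hd1
  have hfr : ∃ᶠ n : ℕ in atTop, d < ((b n : ℕ) : ℝ) ^ ((1 : ℝ) / (n : ℝ)) :=
    frequently_lt_of_lt_limsup (isCoboundedUnder_le_of_le atTop (x := 0) fun n => by positivity) hd2
  have hq : 1 < d / c := (one_lt_div hc0).2 hd1
  have hev : ∀ᶠ n : ℕ in atTop, 72 * c ^ 4 * (n : ℝ) ^ 2 < (d / c) ^ n ∧ 1 ≤ n := by
    have h1 := (tendsto_pow_const_div_const_pow_of_one_lt 2 hq).const_mul (72 * c ^ 4)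
    rw [mul_zero] at h1
    filter_upwards [h1.eventually (gt_mem_nhds one_pos), eventually_ge_atTop 1] with n hn hn1
    refine ⟨?_, hn1⟩
    rw [← mul_div_assoc, div_lt_one (by positivity)] at hn
    exact hn
  obtain ⟨n, hn1, hn2, hn3⟩ := (hfr.and_eventually hev).exists
  have hn0 : (1 : ℝ) ≤ n := by exact_mod_cast hn3
  set K : ℝ := (((2 * n + 1) * (4 * (n + 5)) : ℕ) : ℝ) with hK
  have hKpos : 0 < K := by rw [hK]; positivity
  have hKle : K ≤ 72 * (n : ℝ) ^ 2 := by rw [hK]; push_cast; nlinarith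
  have hbn : d ^ n < (b n : ℝ) := by
    have := pow_lt_pow_left₀ hn1 hd0.le (by omega : n ≠ 0)
    rwa [one_div, Real.rpow_inv_natCast_pow (Nat.cast_nonneg _) (by omega)] at this
  have hρ : c ^ (n + 4) < (b n : ℝ) / K := by
    rw [lt_div_iff₀ hKpos]
    rw [div_pow, lt_div_iff₀ (by positivity)] at hn2
    calc c ^ (n + 4) * K ≤ c ^ (n + 4) * (72 * (n : ℝ) ^ 2) := by gcongr
      _ = 72 * c ^ 4 * (n : ℝ) ^ 2 * c ^ n := by ring
      _ < d ^ n := hn2
      _ < _ := hbn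
  set ρ : ℝ := ((b n : ℝ) / K / c ^ (n + 4)) ^ 2 with hρd
  have hρ1 : 1 < ρ := one_lt_pow₀ ((one_lt_div (by positivity)).2 hρ) (by norm_num)
  have hfa : ∃ᶠ m : ℕ in atTop, c ≤ ((a m : ℕ) : ℝ) ^ ((1 : ℝ) / (m : ℝ)) := by
    rw [frequently_atTop]
    intro N
    obtain ⟨r, hr1, hr2⟩ := (((tendsto_pow_atTop_atTop_of_one_lt hρ1).eventually
      (eventually_ge_atTop (c ^ (2 * (2 * n + 8))))).and (eventually_ge_atTop N)).exists
    refine ⟨(r + 3) * (2 * n + 8), by nlinarith, ?_⟩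
    have h1 : ((b n : ℝ)) ^ (2 * (r + 1)) ≤ K ^ (2 * (r + 1)) * a ((r + 3) * (2 * n + 8)) := by
      rw [hK]; exact_mod_cast h n r
    have h2 : c ^ ((r + 3) * (2 * n + 8)) ≤ (a ((r + 3) * (2 * n + 8)) : ℝ) := by
      have e1 : ((b n : ℝ) / K) ^ (2 * (r + 1)) ≤ a ((r + 3) * (2 * n + 8)) := by
        rw [div_pow, div_le_iff₀ (by positivity)]; exact h1.trans_eq (mul_comm _ _)
      have e2 : ((b n : ℝ) / K) ^ (2 * (r + 1)) = ρ ^ (r + 1) * c ^ ((r + 1) * (2 * n + 8)) := by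
        rw [hρd, ← pow_mul, div_pow ((b n : ℝ) / K), ← pow_mul,
          show (n + 4) * (2 * (r + 1)) = (r + 1) * (2 * n + 8) by ring]
        field_simp
      have e3 : ρ ^ r ≤ ρ ^ (r + 1) := pow_le_pow_right₀ hρ1.le (by omega)
      calc c ^ ((r + 3) * (2 * n + 8)) = c ^ (2 * (2 * n + 8)) * c ^ ((r + 1) * (2 * n + 8)) := by
            rw [← pow_add]; congr 1; ring
        _ ≤ ρ ^ (r + 1) * c ^ ((r + 1) * (2 * n + 8)) := by gcongr; exact hr1.trans e3
        _ ≤ _ := by rw [← e2]; exact e1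
    have h3 := Real.rpow_le_rpow (by positivity) h2
      (show (0 : ℝ) ≤ 1 / (((r + 3) * (2 * n + 8) : ℕ) : ℝ) by positivity)
    rwa [one_div, Real.pow_rpow_inv_natCast hc0.le (by positivity), ← one_div] at h3
  exact absurd (le_limsup_of_frequently_le hfa bdd) (not_le.2 hc1)

/-- The finitely generated group. -/
def GG : Subgroup Gam := Subgroup.closure {gen true, gen false, tt}

theorem gen_mem_GG (i : Bool) : gen i ∈ GG := by
  cases i <;> exact Subgroup.subset_closure (by simp)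

theorem tt_mem_GG : tt ∈ GG := Subgroup.subset_closure (by simp)

theorem HH_le : HH ≤ GG := by
  refine (Subgroup.closure_le _).2 ?_
  rintro x (rfl | rfl) <;> exact gen_mem_GG _

theorem isLet_mem {x : Gam} (h : IsLet x) : x ∈ GG := by
  rcases isLet_cases h with ⟨i, rfl | rfl⟩ | rfl | rfl
  exacts [gen_mem_GG i, GG.inv_mem (gen_mem_GG i), tt_mem_GG, GG.inv_mem tt_mem_GG]

theorem main : ∃ (G : Type) (_ : Group G) (H : Subgroup G) (S : Finset G),
    H ≠ ⊥ ∧ H.FG ∧ Subgroup.closure (S : Set G) = ⊤ ∧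
    (∃ f : Monoid.Coprod (↥H) (Multiplicative ℕ) →* G,
      Function.Injective f ∧ f.comp Monoid.Coprod.inl = H.subtype) ∧
    Filter.limsup (fun n : ℕ => ((Set.ncard {g : G | g ∈ H ∧ ∃ l : List G, l.length ≤ n ∧
        (∀ x ∈ l, x ∈ S ∨ x⁻¹ ∈ S) ∧ l.prod = g} : ℕ) : ℝ) ^ ((1 : ℝ) / (n : ℝ))) Filter.atTop =
      Filter.limsup (fun n : ℕ => ((Set.ncard {g : G | ∃ l : List G, l.length ≤ n ∧
        (∀ x ∈ l, x ∈ S ∨ x⁻¹ ∈ S) ∧ l.prod = g} : ℕ) : ℝ) ^ ((1 : ℝ) / (n : ℝ))) Filter.atTop := by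
  classical
  let a : GG := ⟨gen true, gen_mem_GG _⟩
  let b : GG := ⟨gen false, gen_mem_GG _⟩
  let t : GG := ⟨tt, tt_mem_GG⟩
  let S : Finset GG := {a, b, t}
  have hS : ∀ x : GG, (x ∈ S ∨ x⁻¹ ∈ S) ↔ IsLet (x : Gam) := by
    intro x
    simp [S, a, b, t, IsLet, Subtype.ext_iff]
  have hball : ∀ (n : ℕ) (g : GG), (∃ l : List GG, l.length ≤ n ∧
      (∀ x ∈ l, x ∈ S ∨ x⁻¹ ∈ S) ∧ l.prod = g) ↔ (g : Gam) ∈ Ball n := by
    intro n g
    constructor
    · rintro ⟨l, h1, h2, rfl⟩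
      refine ⟨l.map GG.subtype, by simpa using h1, ?_, (map_list_prod GG.subtype l).symm⟩
      intro x hx
      obtain ⟨y, hy, rfl⟩ := List.mem_map.1 hx
      exact (hS y).1 (h2 y hy)
    · rintro ⟨l, h1, h2, h3⟩
      obtain ⟨l', rfl⟩ : ∃ l' : List GG, l'.map GG.subtype = l :=
        ⟨l.attachWith _ fun x hx => isLet_mem (h2 x hx), by simp⟩
      refine ⟨l', by simpa using h1, fun x hx => (hS x).2 (h2 _ (List.mem_map_of_mem hx)), ?_⟩
      exact Subtype.ext ((map_list_prod GG.subtype l').trans h3)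
  have hmem : ∀ {n : ℕ} {x : Gam}, x ∈ Ball n → x ∈ GG := by
    rintro n x ⟨l, -, h2, rfl⟩
    exact GG.list_prod_mem fun y hy => isLet_mem (h2 y hy)
  have c1 : ∀ n : ℕ, Set.ncard {g : GG | g ∈ HH.subgroupOf GG ∧ ∃ l : List GG, l.length ≤ n ∧
      (∀ x ∈ l, x ∈ S ∨ x⁻¹ ∈ S) ∧ l.prod = g} = {x | x ∈ HH ∧ x ∈ Ball n}.ncard := by
    intro n
    rw [← Set.ncard_image_of_injective _ Subtype.val_injective]
    congr 1
    ext x
    simp only [hball, Set.mem_image, Set.mem_ofPred_eq, Subgroup.mem_subgroupOf]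
    exact ⟨fun ⟨y, hy, e⟩ => e ▸ hy, fun h => ⟨⟨x, hmem h.2⟩, h, rfl⟩⟩
  have c2 : ∀ n : ℕ, Set.ncard {g : GG | ∃ l : List GG, l.length ≤ n ∧
      (∀ x ∈ l, x ∈ S ∨ x⁻¹ ∈ S) ∧ l.prod = g} = (Ball n).ncard := by
    intro n
    rw [← Set.ncard_image_of_injective _ Subtype.val_injective]
    congr 1
    ext x
    simp only [hball, Set.mem_image, Set.mem_ofPred_eq]
    exact ⟨fun ⟨y, hy, e⟩ => e ▸ hy, fun h => ⟨⟨x, hmem h⟩, h, rfl⟩⟩
  have hgg : gg ∈ GG := by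
    rw [gg_eq]
    exact GG.mul_mem (GG.mul_mem (GG.inv_mem tt_mem_GG)
      (GG.mul_mem (gen_mem_GG _) (gen_mem_GG _))) tt_mem_GG
  refine ⟨GG, inferInstance, HH.subgroupOf GG, S, ?_, ?_, ?_, ?_, ?_⟩
  · intro h
    have h1 : a ∈ HH.subgroupOf GG := gen_mem true
    rw [h, Subgroup.mem_bot] at h1
    have h2 : gen true = 1 := congrArg Subtype.val h1
    have h3 : ev [(true, 1)] = ev [] := by
      have := congrArg SemidirectProduct.left h2
      simpa [gen] using this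
    have := ev_inj (red_cons.2 ⟨by norm_num, by simp, red_nil⟩) red_nil h3
    simp at this
  · refine ⟨{a, b}, ?_⟩
    apply Subgroup.map_injective GG.subtype_injective
    rw [MonoidHom.map_closure, Subgroup.subgroupOf_map_subtype, inf_eq_left.2 HH_le]
    simp [Set.image_insert_eq, a, b, HH]
  · apply Subgroup.map_injective GG.subtype_injective
    rw [MonoidHom.map_closure, ← MonoidHom.range_eq_map, Subgroup.range_subtype]
    have : (GG.subtype : GG → Gam) '' (S : Set GG) = {gen true, gen false, tt} := by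
      simp [Set.image_insert_eq, S, a, b, t]
    rw [this]
    rfl
  · let f : Monoid.Coprod (↥(HH.subgroupOf GG)) (Multiplicative ℕ) →* GG :=
      Coprod.lift (HH.subgroupOf GG).subtype (powersHom GG ⟨gg, hgg⟩)
    refine ⟨f, ?_, rfl⟩
    have := coprod_inj (GG.subtype.comp (HH.subgroupOf GG).subtype)
      (GG.subtype_injective.comp (HH.subgroupOf GG).subtype_injective) (fun k => k.2)
      (GG.subtype.comp f) (fun k => rfl) (by simp [f])
    exact Function.Injective.of_comp (f := GG.subtype) this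
  · simp only [c1, c2]
    have ha : ∀ n, {x | x ∈ HH ∧ x ∈ Ball n}.ncard ≤ (Ball n).ncard := fun n =>
      Set.ncard_le_ncard (fun _ h => h.2) (ball_finite n).1
    refine le_antisymm ?_ (limsup_le_of (fun n => (ha n).trans (ball_finite n).2)
      (fun n => (ball_finite n).2) many)
    refine limsup_le_limsup (Eventually.of_forall fun n => ?_)
      (isCoboundedUnder_le_of_le atTop (x := 0) fun n => by positivity)
      (isBoundedUnder_of ⟨7, root_le fun n => (ball_finite n).2⟩)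
    exact Real.rpow_le_rpow (Nat.cast_nonneg _) (by exact_mod_cast ha n) (by positivity)

end Pool.Agent.H949Z.Gro
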